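import Pool.Agent.Lib.MP_eee7a8_ag.TB.Iface3
import Pool.Agent.Lib.MP_eee7a8_ag.TB.A.Coord
import Pool.Agent.Lib.MP_eee7a8_ag.TB.A.Tri
import Pool.Agent.Lib.MP_eee7a8_ag.TB.A.Ord

/-! # TAGBR: CASEA0, CASEA1, CUT (helper2) -/

open Matrix

namespace Pool.Agent.Lib.MP_eee7a8_ag.TB.C2

variable {G : Subgroup SLZ} {K : Type} [Field K] [Algebra ℂ K]

lemma lam_same (L : Lam G K) {a b c d : Cusp} (h : SameArc G a b c d) : L.lam a b = L.lam c d := by
  obtain ⟨g, hg, h | h⟩ := h
  · rw [← h.1, ← h.2, L.inv g hg]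
  · rw [← h.1, ← h.2, L.symm (g • b) (g • a), L.inv g hg]

lemma lam_mem_RA (L : Lam G K) (a b : Cusp) : L.lam a b ∈ L.RA :=
  Algebra.subset_adjoin (Or.inl ⟨a, b, fun _ _ h => h.elim, rfl⟩)

lemma RA_le_RI (L : Lam G K) (F : Cusp → Cusp → Prop) : L.RA ≤ L.RI F :=
  fun _ hx => Algebra.subset_adjoin (Or.inl hx)

lemma inv_mem_RI (L : Lam G K) {F : Cusp → Cusp → Prop} {a b : Cusp} (h : F a b) :
    (L.lam a b)⁻¹ ∈ L.RI F :=
  Algebra.subset_adjoin (Or.inr ⟨a, b, h, rfl⟩)

lemma lam_mem_RI (L : Lam G K) (F : Cusp → Cusp → Prop) (a b : Cusp) : L.lam a b ∈ L.RI F :=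
  RA_le_RI L F (lam_mem_RA L a b)

lemma sl_mem_RI (L : Lam G K) (F : Cusp → Cusp → Prop) (a b : Cusp) : L.sl a b ∈ L.RI F := by
  rw [Lam.sl]
  refine (L.RI F).mul_mem ?_ (lam_mem_RI L F a b)
  exact (L.RI F).intCast_mem _

/-- CASEA0 -/
theorem casea0 (abs : AbsStatement) (vgen : VgenStatement) (stab : StabStatement)
    (nonzero : NonzeroStatement) : CaseA0Statement := by
  intro G K _ _ L hG F hinv hne z w g hg hgz hF hno f δ hf hδ hz
  refine abs G K L hG F hinv hne z hno f δ ?_ hδ hz
  have hsub : L.RI (AddArc G F z w) ≤ Algebra.adjoin ℂ ((L.RI F : Set K) ∪ {L.v z}) := by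
    refine Algebra.adjoin_le ?_
    rintro x (hx | ⟨a, b, hab | hab, rfl⟩)
    · exact Algebra.subset_adjoin (Or.inl (RA_le_RI L F hx))
    · exact Algebra.subset_adjoin (Or.inl (inv_mem_RI L hab))
    · rw [← lam_same L hab]
      obtain ⟨k, hk⟩ := (stab G hG z).2.2 g hg hgz
      have h1 : g • w = par z (k * width G z) • w := by
        rcases hk with h | h
        · rw [h]
        · rw [h, neg_smul']
      have h2 := vgen G K L hG z w k
      rw [← h1] at h2
      have hwg : w ≠ g • w := hne _ _ hF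
      have hzw : z ≠ w := by
        rintro rfl
        exact hwg hgz.symm
      have h3 : L.lam z w ≠ 0 := nonzero G K L hG z w hzw
      have h4 : L.lam w (g • w) ≠ 0 := nonzero G K L hG _ _ hwg
      have h5 : (L.lam z w)⁻¹ = ((|k| : ℤ) : K) * L.v z * L.lam z w * (L.lam w (g • w))⁻¹ := by
        rw [h2]
        rw [h2] at h4
        have h6 : ((|k| : ℤ) : K) * L.v z ≠ 0 := by
          intro h0
          apply h4
          rw [h0, zero_mul]
        field_simp
        exact (div_self h6).symm
      rw [h5]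
      refine mul_mem (mul_mem (mul_mem ?_ ?_) ?_) ?_
      · exact Subalgebra.intCast_mem _ _
      · exact Algebra.subset_adjoin (Or.inr rfl)
      · exact Algebra.subset_adjoin (Or.inl (lam_mem_RI L F z w))
      · exact Algebra.subset_adjoin (Or.inl (inv_mem_RI L hF))
  exact hsub hf

/-- clearing denominators -/
lemma clear (L : Lam G K) (F : Cusp → Cusp → Prop) (p q : Cusp) {f : K}
    (hf : f ∈ L.RI (AddArc G F p q)) : ∃ N : ℕ, ∀ n, N ≤ n → L.lam p q ^ n * f ∈ L.RI F := by
  have hpow : ∀ n, L.lam p q ^ n ∈ L.RI F := fun n => pow_mem (lam_mem_RI L F p q) n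
  induction hf using Algebra.adjoin_induction with
  | mem x hx =>
    rcases hx with hx | ⟨a, b, hab | hab, rfl⟩
    · exact ⟨0, fun n _ => mul_mem (hpow n) (RA_le_RI L F hx)⟩
    · exact ⟨0, fun n _ => mul_mem (hpow n) (inv_mem_RI L hab)⟩
    · refine ⟨1, fun n hn => ?_⟩
      rw [← lam_same L hab]
      obtain ⟨m, rfl⟩ : ∃ m, n = m + 1 := ⟨n - 1, by omega⟩
      by_cases h0 : L.lam p q = 0
      · rw [h0, _root_.inv_zero, mul_zero]
        exact zero_mem _
      · rw [pow_succ, mul_assoc, mul_inv_cancel₀ h0, mul_one]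
        exact hpow m
  | algebraMap r => exact ⟨0, fun n _ => mul_mem (hpow n) (Subalgebra.algebraMap_mem _ r)⟩
  | add x y _ _ hx hy =>
    obtain ⟨N, hN⟩ := hx
    obtain ⟨M, hM⟩ := hy
    refine ⟨max N M, fun n hn => ?_⟩
    rw [mul_add]
    exact add_mem (hN n ((le_max_left _ _).trans hn)) (hM n ((le_max_right _ _).trans hn))
  | mul x y _ _ hx hy =>
    obtain ⟨N, hN⟩ := hx
    obtain ⟨M, hM⟩ := hy
    refine ⟨N + M, fun n hn => ?_⟩
    have h1 : L.lam p q ^ n * (x * y) = (L.lam p q ^ N * x) * (L.lam p q ^ (n - N) * y) := by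
      have : n = N + (n - N) := by omega
      conv_lhs => rw [this, pow_add]
      ring
    rw [h1]
    exact mul_mem (hN N le_rfl) (hM _ (by omega))

/-- CASEA1 -/
theorem casea1 (plucker : PluckerStatement) (nonzero : NonzeroStatement) : CaseA1Statement := by
  intro G K _ _ L hG F hinv hne w v z z' hwv hzz hzw hzv f hf1 hf2
  obtain ⟨N, hN⟩ := clear L F z w hf1
  obtain ⟨M, hM⟩ := clear L F z v hf2
  have hwv' : w ≠ v := hne _ _ hwv
  have hzz' : z ≠ z' := hne _ _ hzz
  obtain ⟨hpl, -, -⟩ := plucker G K L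
  have h1 := hpl w v z z'
  have hs : ∀ a b : Cusp, a ≠ b → ((Int.sign (dt a b) : ℤ) : K) * ((Int.sign (dt a b) : ℤ) : K) = 1 := by
    intro a b h
    have h1 : Int.sign (dt a b) * Int.sign (dt a b) = 1 := by
      rcases lt_or_gt_of_ne (dt_ne_zero h) with h2 | h2
      · rw [Int.sign_eq_neg_one_of_neg h2]; norm_num
      · rw [Int.sign_eq_one_of_pos h2]; norm_num
    have := congrArg (Int.cast : ℤ → K) h1
    push_cast at this
    exact this
  -- the unit
  have hunit : ∀ a b : Cusp, F a b → ∃ i ∈ L.RI F, i * L.sl a b = 1 := by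
    intro a b hab
    refine ⟨((Int.sign (dt a b) : ℤ) : K) * (L.lam a b)⁻¹,
      mul_mem (Subalgebra.intCast_mem _ _) (inv_mem_RI L hab), ?_⟩
    have h0 : L.lam a b ≠ 0 := nonzero G K L hG a b (hne _ _ hab)
    rw [Lam.sl]
    have h2 := hs a b (hne _ _ hab)
    have h3 := inv_mul_cancel₀ h0
    linear_combination h2 * ((L.lam a b)⁻¹ * L.lam a b) + h3
  obtain ⟨i1, hi1, hi1'⟩ := hunit w v hwv
  obtain ⟨i2, hi2, hi2'⟩ := hunit z z' hzz
  -- `1 = A a + B b`
  set a := L.lam z w with ha
  set b := L.lam z v with hb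
  obtain ⟨A, hA, B, hB, hAB⟩ : ∃ A ∈ L.RI F, ∃ B ∈ L.RI F, 1 = A * a + B * b := by
    refine ⟨i1 * i2 * (((Int.sign (dt w z) : ℤ) : K) * L.sl v z'), ?_,
      -(i1 * i2 * (((Int.sign (dt v z) : ℤ) : K) * L.sl w z')), ?_, ?_⟩
    · exact mul_mem (mul_mem hi1 hi2) (mul_mem (Subalgebra.intCast_mem _ _) (sl_mem_RI L F _ _))
    · exact neg_mem (mul_mem (mul_mem hi1 hi2) (mul_mem (Subalgebra.intCast_mem _ _) (sl_mem_RI L F _ _)))
    · have e1 : L.sl w z = ((Int.sign (dt w z) : ℤ) : K) * a := by rw [Lam.sl, ha, L.symm w z]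
      have e2 : L.sl v z = ((Int.sign (dt v z) : ℤ) : K) * b := by rw [Lam.sl, hb, L.symm v z]
      rw [e1, e2] at h1
      have h3 : 1 = (i1 * L.sl w v) * (i2 * L.sl z z') := by rw [hi1', hi2', one_mul]
      rw [h3]
      linear_combination (i1 * i2) * h1
  have hfin : ∀ n : ℕ, ∀ i j : ℕ, i + j + n = N + M → a ^ i * b ^ j * f ∈ L.RI F := by
    intro n
    induction n with
    | zero =>
      intro i j hij
      rcases le_or_gt N i with h | h
      · have : a ^ i * b ^ j * f = b ^ j * (a ^ i * f) := by ring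
        rw [this]
        exact mul_mem (pow_mem (lam_mem_RI L F _ _) _) (hN i h)
      · have : a ^ i * b ^ j * f = a ^ i * (b ^ j * f) := by ring
        rw [this]
        exact mul_mem (pow_mem (lam_mem_RI L F _ _) _) (hM j (by omega))
    | succ n ih =>
      intro i j hij
      have : a ^ i * b ^ j * f = A * (a ^ (i + 1) * b ^ j * f) + B * (a ^ i * b ^ (j + 1) * f) := by
        have := congrArg (fun x => x * (a ^ i * b ^ j * f)) hAB
        simp only [one_mul] at this
        rw [this]
        ring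
      rw [this]
      exact add_mem (mul_mem hA (ih (i + 1) j (by omega))) (mul_mem hB (ih i (j + 1) (by omega)))
  have := hfin (N + M) 0 0 (by omega)
  simpa using this

/-- a strand crossing a side of a quadrilateral crosses a diagonal -/
lemma side_comb {a b c d p q : Cusp} (h : Cross a b c d) (h1 : Cross p q a c) :
    Cross p q a b ∨ Cross p q c d := by
  simp only [cross_iff] at *
  grind (splits := 60)

/-- CUT -/
theorem cut (famfin : FamFinStatement) (trace : TraceStatement) (nonzero : NonzeroStatement) :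
    CutStatement := by
  intro G K _ _ L hG κ _ Q hQ A hA1 hA2
  have := Fintype.ofFinite κ
  have hlam : ∀ n : ℕ, ∀ a b, Set.ncard {p : Cusp × Cusp | Q.E G p.1 p.2 ∧ Cross p.1 p.2 a b} ≤ n →
      L.lam a b ∈ A := by
    intro n
    induction n with
    | zero =>
      intro a b hn
      have h0 : {p : Cusp × Cusp | Q.E G p.1 p.2 ∧ Cross p.1 p.2 a b} = ∅ := by
        rw [← Set.ncard_eq_zero (famfin G κ Q a b)]
        omega
      apply hA2
      refine Algebra.subset_adjoin (Or.inl ⟨a, b, ?_, rfl⟩)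
      intro c d hcd hc
      have : (c, d) ∈ {p : Cusp × Cusp | Q.E G p.1 p.2 ∧ Cross p.1 p.2 a b} :=
        ⟨hcd, cross_swap.1 hc⟩
      rw [h0] at this
      exact this
    | succ n ih =>
      intro a b hn
      by_cases h0 : ∀ c d, Q.E G c d → ¬ Cross a b c d
      · apply hA2
        exact Algebra.subset_adjoin (Or.inl ⟨a, b, h0, rfl⟩)
      · push Not at h0
        obtain ⟨c, d, hcd, hc⟩ := h0
        have hcdn : L.lam c d ≠ 0 := nonzero G K L hG c d hc.ne.2.2.2.2.2
        have hpt := L.ptolemy a b c d hc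
        have hlt : ∀ x y, (∀ p q, Q.E G p q → Cross p q x y → Cross p q a b) →
            ¬ Cross c d x y → L.lam x y ∈ A := by
          intro x y h1 h2
          apply ih
          have h3 : Set.ncard {p : Cusp × Cusp | Q.E G p.1 p.2 ∧ Cross p.1 p.2 x y} <
              Set.ncard {p : Cusp × Cusp | Q.E G p.1 p.2 ∧ Cross p.1 p.2 a b} := by
            apply Set.ncard_lt_ncard _ (famfin G κ Q a b)
            rw [Set.ssubset_iff_of_subset]
            · exact ⟨(c, d), ⟨hcd, cross_swap.1 hc⟩, fun h => h2 h.2⟩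
            · rintro ⟨p, q⟩ ⟨hpq, hcr⟩
              exact ⟨hpq, h1 p q hpq hcr⟩
          omega
        have hkey : ∀ x y, (∀ p q, Cross p q x y → Cross p q a b ∨ Cross p q c d) →
            ¬ Cross c d x y → L.lam x y ∈ A := by
          intro x y h1 h2
          apply hlt x y _ h2
          intro p q hpq hcr
          rcases h1 p q hcr with h | h
          · exact h
          · exact absurd h (hQ.nocross _ _ _ _ hpq hcd)
        have k1 : L.lam a c ∈ A := by
          apply hkey
          · intro p q h; exact side_comb hc h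
          · intro h; exact h.ne.2.2.1 rfl
        have k2 : L.lam b d ∈ A := by
          apply hkey
          · intro p q h
            rcases side_comb (cross_comm_left.1 (cross_comm_right.1 hc)) h with h | h
            · exact Or.inl (cross_comm_right.1 h)
            · exact Or.inr (cross_comm_right.1 h)
          · intro h; exact h.ne.2.2.2.2.1 rfl
        have k3 : L.lam a d ∈ A := by
          apply hkey
          · intro p q h
            rcases side_comb (cross_comm_right.1 hc) h with h | h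
            · exact Or.inl h
            · exact Or.inr (cross_comm_right.1 h)
          · intro h; exact h.ne.2.2.2.2.1 rfl
        have k4 : L.lam b c ∈ A := by
          apply hkey
          · intro p q h
            rcases side_comb (cross_comm_left.1 hc) h with h | h
            · exact Or.inl (cross_comm_right.1 h)
            · exact Or.inr h
          · intro h; exact h.ne.2.2.1 rfl
        have h5 : L.lam a b = (L.lam a c * L.lam b d + L.lam a d * L.lam b c) * (L.lam c d)⁻¹ := by
          rw [← hpt]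
          field_simp
        rw [h5]
        exact mul_mem (add_mem (mul_mem k1 k2) (mul_mem k3 k4)) (hA1 c d hcd)
  have hlam' : ∀ a b, L.lam a b ∈ A := fun a b => hlam _ a b le_rfl
  refine Algebra.adjoin_le ?_
  rintro x (⟨a, b, -, rfl⟩ | ⟨g, hg, htr, -, rfl⟩)
  · exact hlam' a b
  · obtain ⟨hside, htrace, -⟩ := trace G K L hG g hg htr
    by_cases h0 : ∀ c d, Q.E G c d → 0 < side g c * side g d
    · apply hA2
      exact Algebra.subset_adjoin (Or.inr ⟨g, hg, htr, h0, rfl⟩)
    · push Not at h0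
      obtain ⟨c, d, hcd, hc⟩ := h0
      have hc' : side g c * side g d < 0 :=
        lt_of_le_of_ne hc (mul_ne_zero (hside c) (hside d))
      have hcdn : L.lam c d ≠ 0 := nonzero G K L hG c d (hQ.ne' hcd)
      have h5 : L.tr g = (L.lam c (g • d) + L.lam c (g⁻¹ • d)) * (L.lam c d)⁻¹ := by
        rw [← htrace c d hc']
        field_simp
      rw [h5]
      exact mul_mem (add_mem (hlam' _ _) (hlam' _ _)) (hA1 c d hcd)

end Pool.Agent.Lib.MP_eee7a8_ag.TB.C2
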