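import Pool.Agent.Lib.MP_eee7a8_ag.TB.Iface3
import Pool.Agent.Lib.MP_eee7a8_ag.TB.A.Coord

/-! # TAGBR: NCP, RULE3 (helper2) -/

open Matrix

namespace Pool.Agent.Lib.MP_eee7a8_ag.TB.C2

variable {G : Subgroup SLZ}

/-- `side` is invariant -/
lemma side_smul (h : SLZ) (a : Cusp) : side h (h • a) = side h a := by
  unfold side
  rw [smul_x', smul_y']
  have e := eps_sq h a
  have d := det_eq h
  linear_combination ((h.1 0 0 * a.x + h.1 0 1 * a.y) *
    (h.1 1 0 * (h.1 0 0 * a.x + h.1 0 1 * a.y) + h.1 1 1 * (h.1 1 0 * a.x + h.1 1 1 * a.y)) -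
    (h.1 1 0 * a.x + h.1 1 1 * a.y) *
    (h.1 0 0 * (h.1 0 0 * a.x + h.1 0 1 * a.y) + h.1 0 1 * (h.1 1 0 * a.x + h.1 1 1 * a.y))) * e +
    (a.x * (h.1 1 0 * a.x + h.1 1 1 * a.y) - a.y * (h.1 0 0 * a.x + h.1 0 1 * a.y)) * d

lemma side_inv_smul (h : SLZ) (a : Cusp) : side h (h⁻¹ • a) = side h a := by
  have := side_smul h (h⁻¹ • a)
  rw [smul_inv_smul] at this
  exact this.symm

/-- the two sides of an axis are not separated -/
lemma side_sep (h : SLZ) {p q r s : Cusp} (hp : 0 < side h p) (hq : 0 < side h q)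
    (hr : side h r < 0) (hs : side h s < 0) : ¬ Cross p q r s := by
  -- twice the polar form
  set B : ℤ := 2 * h.1 1 0 * p.x * q.x + (h.1 1 1 - h.1 0 0) * (p.x * q.y + p.y * q.x) -
    2 * h.1 0 1 * p.y * q.y with hB
  have key : ∀ r : Cusp, dt p q ^ 2 * side h r =
      dt r q ^ 2 * side h p + dt r q * dt p r * B + dt p r ^ 2 * side h q := by
    intro r
    rw [hB]
    unfold side dt
    ring
  have hr' := key r
  have hs' := key s
  have a1 : dt r q * dt p r * B ≤ 0 := by
    nlinarith [mul_nonneg (sq_nonneg (dt r q)) hp.le, mul_nonneg (sq_nonneg (dt p r)) hq.le,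
      mul_nonneg (sq_nonneg (dt p q)) (neg_nonneg.2 hr.le)]
  have a2 : dt s q * dt p s * B ≤ 0 := by
    nlinarith [mul_nonneg (sq_nonneg (dt s q)) hp.le, mul_nonneg (sq_nonneg (dt p s)) hq.le,
      mul_nonneg (sq_nonneg (dt p q)) (neg_nonneg.2 hs.le)]
  intro hc
  have hcne := hc.ne
  unfold Cross at hc
  have hpq : 0 < dt p q ^ 2 := by
    have := dt_ne_zero hcne.1
    positivity
  have hB0 : B ≠ 0 := by
    intro h0
    rw [h0, mul_zero, add_zero] at hr'
    nlinarith [mul_nonneg (sq_nonneg (dt r q)) hp.le, mul_nonneg (sq_nonneg (dt p r)) hq.le]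
  have e1 : dt r q = - dt q r := dt_symm r q
  have e2 : dt s q = - dt q s := dt_symm s q
  rw [e1] at a1
  rw [e2] at a2
  have b1 : 0 ≤ (dt p r * dt q r) * B := by linarith
  have b2 : 0 ≤ (dt p s * dt q s) * B := by linarith
  have b3 : 0 ≤ ((dt p r * dt q r) * (dt p s * dt q s)) * (B * B) := by
    have := mul_nonneg b1 b2
    linarith [this, show ((dt p r * dt q r) * B) * ((dt p s * dt q s) * B) =
      ((dt p r * dt q r) * (dt p s * dt q s)) * (B * B) by ring]
  have b4 : 0 < B * B := mul_self_pos.2 hB0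
  have b5 : ((dt p r * dt q r) * (dt p s * dt q s)) * (B * B) < 0 := mul_neg_of_neg_of_pos hc b4
  linarith

lemma side_sep' (h : SLZ) {p q r s : Cusp} (hpq : 0 < side h p * side h q)
    (hrs : 0 < side h r * side h s) (hpr : side h p * side h r < 0) : ¬ Cross p q r s := by
  rcases lt_trichotomy (side h p) 0 with h1 | h1 | h1
  · have hq : side h q < 0 := by nlinarith
    have hr : 0 < side h r := by nlinarith
    have hs : 0 < side h s := by nlinarith
    intro hc
    exact side_sep h hr hs h1 hq (cross_swap.1 hc)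
  · rw [h1] at hpq; simp at hpq
  · have hq : 0 < side h q := by nlinarith
    have hr : side h r < 0 := by nlinarith
    have hs : side h s < 0 := by nlinarith
    exact side_sep h h1 hq hr hs

/-- crossing in terms of one function -/
lemma cross_f {a b c d : Cusp} : Cross a b c d ↔ (dt a c * dt a d) * (dt b c * dt b d) < 0 := by
  unfold Cross
  rw [show dt a c * dt b c * (dt a d * dt b d) = dt a c * dt a d * (dt b c * dt b d) by ring]

/-- separation is transitive -/
lemma cross_move {c d x y y' : Cusp} (h : Cross x y c d) (h' : ¬ Cross y y' c d)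
    (hc : y' ≠ c) (hd : y' ≠ d) : Cross x y' c d := by
  rw [cross_f] at *
  have h0 : dt y' c * dt y' d ≠ 0 := mul_ne_zero (dt_ne_zero hc) (dt_ne_zero hd)
  push Not at h'
  have h1 : dt y c * dt y d ≠ 0 := by
    intro h1; rw [h1] at h; simp at h
  rcases lt_or_gt_of_ne h0 with h2 | h2 <;> rcases lt_or_gt_of_ne h1 with h3 | h3 <;> nlinarith

/-- one case of the first clause of NCP -/
lemma ncp_aux {e : Option (Cusp × Cusp)} {g : SLZ} (hN : NCL G e g) {x y : Cusp} (hxy : NC G e x y)
    (hs : side g x * side g y < 0) {y' : Cusp} (hy' : side g y' = side g y) {c d : Cusp}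
    (hcd : Ge G e c d) (hc : Cross x y' c d) (hcx : 0 < side g c * side g x) : False := by
  have hcd' := hN c d hcd
  have hy0 : side g y ≠ 0 := by intro h; rw [h] at hs; simp at hs
  have hyy : 0 < side g y' * side g y := by rw [hy']; exact mul_self_pos.2 hy0
  have hcy : side g y' * side g c < 0 := by
    rw [hy']
    have hx0 : side g x ≠ 0 := by intro h; rw [h] at hs; simp at hs
    rcases lt_or_gt_of_ne hx0 with h | h
    · have h1 : side g c < 0 := by nlinarith
      have h2 : 0 < side g y := by nlinarith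
      nlinarith
    · have h1 : 0 < side g c := by nlinarith
      have h2 : side g y < 0 := by nlinarith
      nlinarith
  have hnc : ¬ Cross y' y c d := side_sep' g hyy hcd' hcy
  have hyc : y ≠ c := by
    rintro rfl
    rw [hy'] at hcy
    nlinarith [mul_self_nonneg (side g y)]
  have hyd : y ≠ d := by
    rintro rfl
    rw [hy'] at hcy
    nlinarith
  exact hxy c d hcd (cross_move hc hnc hyc hyd)

lemma ge_smul' {e : Option (Cusp × Cusp)} {g : SLZ} (hg : g ∈ G) {a b : Cusp} (h : Ge G e a b) :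
    Ge G e (g • a) (g • b) := by
  obtain ⟨p, hp, k, hk, h⟩ := h
  refine ⟨p, hp, g * k, G.mul_mem hg hk, ?_⟩
  rw [mul_smul, mul_smul]
  rcases h with h | h
  · left; rw [h.1, h.2]; exact ⟨rfl, rfl⟩
  · right; rw [h.1, h.2]; exact ⟨rfl, rfl⟩

/-- first clause of NCP -/
lemma ncp1 {e : Option (Cusp × Cusp)} {g : SLZ} (hg : g ∈ G) (hN : NCL G e g) {x y : Cusp}
    (hxy : NC G e x y) (hs : side g x * side g y < 0) : NC G e x (g • y) := by
  intro c d hcd hc
  have hcd' := hN c d hcd
  have hx0 : side g x ≠ 0 := by intro h; rw [h] at hs; simp at hs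
  have hc0 : side g c ≠ 0 := by intro h; rw [h] at hcd'; simp at hcd'
  rcases lt_or_gt_of_ne (mul_ne_zero hc0 hx0) with h | h
  · -- `c` on the side of `y`
    have hyx : NC G e y x := fun c d hcd hc => hxy c d hcd (cross_comm_left.1 hc)
    have hcd2 : Ge G e (g⁻¹ • c) (g⁻¹ • d) := ge_smul' (G.inv_mem hg) hcd
    have hc2 : Cross y (g⁻¹ • x) (g⁻¹ • c) (g⁻¹ • d) := by
      rw [← cross_smul g, smul_inv_smul, smul_inv_smul, smul_inv_smul]
      exact cross_comm_left.1 hc
    refine ncp_aux hN hyx (by rw [mul_comm]; exact hs) (side_inv_smul g x) hcd2 hc2 ?_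
    rw [side_inv_smul]
    have hy0 : side g y ≠ 0 := by intro h; rw [h] at hs; simp at hs
    rcases lt_or_gt_of_ne hx0 with h1 | h1
    · have : 0 < side g c := by nlinarith
      have : 0 < side g y := by nlinarith
      positivity
    · have h2 : side g c < 0 := by nlinarith
      have h3 : side g y < 0 := by nlinarith
      nlinarith
  · exact ncp_aux hN hxy hs (side_smul g y) hcd hc h

lemma NCL_inv {e : Option (Cusp × Cusp)} {g : SLZ} (hN : NCL G e g) : NCL G e g⁻¹ := by
  intro c d hcd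
  have h := hN c d hcd
  have h1 : ∀ a, side g⁻¹ a = - side g a := by
    intro a
    unfold side
    rw [Matrix.SpecialLinearGroup.coe_inv, Matrix.adjugate_fin_two]
    simp only [Matrix.of_apply, Matrix.cons_val', Matrix.cons_val_zero, Matrix.cons_val_one,
      Matrix.cons_val_fin_one]
    ring
  rw [h1, h1]
  linarith

lemma side_inv (g : SLZ) (a : Cusp) : side g⁻¹ a = - side g a := by
  unfold side
  rw [Matrix.SpecialLinearGroup.coe_inv, Matrix.adjugate_fin_two]
  simp only [Matrix.of_apply, Matrix.cons_val', Matrix.cons_val_zero, Matrix.cons_val_one,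
    Matrix.cons_val_fin_one]
  ring

/-- NCP -/
theorem ncp (tool : ToolStatement) : NcpStatement := by
  intro G hG e he
  obtain ⟨-, t2, -, -, -, t6⟩ := tool G hG e he
  refine ⟨?_, ?_⟩
  · intro g hg _ hN x y hxy hs
    refine ⟨ncp1 hg hN hxy hs, ncp1 (G.inv_mem hg) (NCL_inv hN) hxy ?_⟩
    rw [side_inv, side_inv]
    linarith
  · intro g hg x y hxy hcr k c d hcd hcross
    obtain ⟨n1, n2, n3, n4⟩ := t6 x y (g • x) (g • y) hcr hxy (t2 g hg x y hxy)
    rw [cross_f] at hcross
    -- the function measuring the side of `cd`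
    set f : Cusp → ℤ := fun p => dt p c * dt p d with hf
    have hnc : ∀ p q, NC G e p q → 0 ≤ f p * f q := by
      intro p q h
      by_contra hcon
      push Not at hcon
      exact h c d hcd (cross_f.2 hcon)
    have hpow : ∀ i : ℤ, g ^ i ∈ G := fun i => G.zpow_mem hg i
    have hi1 : ∀ i : ℤ, 0 ≤ f (g ^ i • x) * f (g ^ i • y) := fun i => hnc _ _ (t2 _ (hpow i) _ _ hxy)
    have hsucc : ∀ i : ℤ, ∀ p : Cusp, g ^ (i + 1) • p = g ^ i • g • p := by
      intro i p
      rw [_root_.zpow_add, zpow_one, mul_smul]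
    have hxx : ∀ i : ℤ, 0 ≤ f (g ^ i • x) * f (g ^ (i + 1) • x) := fun i => by
      rw [hsucc]; exact hnc _ _ (t2 _ (hpow i) _ _ n1)
    have hyy : ∀ i : ℤ, 0 ≤ f (g ^ i • y) * f (g ^ (i + 1) • y) := fun i => by
      rw [hsucc]; exact hnc _ _ (t2 _ (hpow i) _ _ n2)
    have hxy1 : ∀ i : ℤ, 0 ≤ f (g ^ i • x) * f (g ^ (i + 1) • y) := fun i => by
      rw [hsucc]; exact hnc _ _ (t2 _ (hpow i) _ _ n3)
    have hyx1 : ∀ i : ℤ, 0 ≤ f (g ^ i • y) * f (g ^ (i + 1) • x) := fun i => by
      rw [hsucc]; exact hnc _ _ (t2 _ (hpow i) _ _ n4)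
    -- not both zero
    have hnz : ∀ i : ℤ, f (g ^ i • x) ≠ 0 ∨ f (g ^ i • y) ≠ 0 := by
      intro i
      by_contra hcon
      push Not at hcon
      obtain ⟨z1, z2⟩ := hcon
      have hne : g ^ i • x ≠ g ^ i • y := by
        intro h; exact hcr.ne.1 (MulAction.injective _ h)
      have z1' : g ^ i • x = c ∨ g ^ i • x = d := by
        rcases mul_eq_zero.1 z1 with h | h
        · exact Or.inl (dt_eq_zero.1 h)
        · exact Or.inr (dt_eq_zero.1 h)
      have z2' : g ^ i • y = c ∨ g ^ i • y = d := by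
        rcases mul_eq_zero.1 z2 with h | h
        · exact Or.inl (dt_eq_zero.1 h)
        · exact Or.inr (dt_eq_zero.1 h)
      have hcr' : Cross (g ^ (i + 1) • x) (g ^ (i + 1) • y) (g ^ i • x) (g ^ i • y) := by
        rw [hsucc, hsucc, cross_smul]
        exact cross_swap.1 hcr
      have hN' : NC G e (g ^ (i + 1) • x) (g ^ (i + 1) • y) := t2 _ (hpow _) _ _ hxy
      rcases z1' with h1 | h1 <;> rcases z2' with h2 | h2
      · exact hne (h1.trans h2.symm)
      · rw [h1, h2] at hcr'; exact hN' c d hcd hcr'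
      · rw [h1, h2] at hcr'; exact hN' c d hcd (cross_comm_right.1 hcr')
      · exact hne (h1.trans h2.symm)
    set τ : ℤ → ℤ := fun i => f (g ^ i • x) + f (g ^ i • y) with hτ
    have hτx : ∀ i, 0 ≤ τ i * f (g ^ i • x) := fun i => by
      have := hi1 i
      simp only [hτ]
      nlinarith [mul_self_nonneg (f (g ^ i • x))]
    have hτy : ∀ i, 0 ≤ τ i * f (g ^ i • y) := fun i => by
      have := hi1 i
      simp only [hτ]
      nlinarith [mul_self_nonneg (f (g ^ i • y))]
    have hτ0 : ∀ i, τ i ≠ 0 := by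
      intro i h0
      have h1 := hi1 i
      have h2 : f (g ^ i • y) = - f (g ^ i • x) := by simp only [hτ] at h0; linarith
      rw [h2] at h1
      have h3 : f (g ^ i • x) = 0 := by nlinarith [mul_self_nonneg (f (g ^ i • x))]
      rcases hnz i with h | h
      · exact h h3
      · rw [h2, h3] at h; simp at h
    have hττ : ∀ i, 0 < τ i * τ (i + 1) := by
      intro i
      have h0 : 0 ≤ τ i * τ (i + 1) := by
        simp only [hτ]
        have a1 := hxx i
        have a2 := hyy i
        have a3 := hxy1 i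
        have a4 := hyx1 i
        nlinarith
      exact lt_of_le_of_ne h0 (Ne.symm (mul_ne_zero (hτ0 i) (hτ0 (i + 1))))
    have hall : ∀ i : ℤ, 0 < τ 0 * τ i := by
      intro i
      induction i using Int.induction_on with
      | zero => exact mul_self_pos.2 (hτ0 0)
      | succ i ih =>
        have h1 := hττ i
        have h2 := hτ0 0
        have h3 := hτ0 (i + 1)
        have h4 := hτ0 i
        rcases lt_or_gt_of_ne h2 with h2 | h2 <;> rcases lt_or_gt_of_ne h3 with h3 | h3 <;>
          rcases lt_or_gt_of_ne h4 with h4 | h4 <;> nlinarith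
      | pred i ih =>
        have h1 := hττ (-i - 1)
        rw [sub_add_cancel] at h1
        have h2 := hτ0 0
        have h3 := hτ0 (-i - 1)
        have h4 := hτ0 (-i)
        rcases lt_or_gt_of_ne h2 with h2 | h2 <;> rcases lt_or_gt_of_ne h3 with h3 | h3 <;>
          rcases lt_or_gt_of_ne h4 with h4 | h4 <;> nlinarith
    have h1 := hall k
    have h2 := hτx k
    have h3 := hτy 0
    rw [zpow_zero, one_smul] at h3
    change f (g ^ k • x) * f y < 0 at hcross
    have h4 : 0 ≤ (τ k * f (g ^ k • x)) * (τ 0 * f y) := mul_nonneg h2 h3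
    have h5 : (τ k * f (g ^ k • x)) * (τ 0 * f y) = (τ 0 * τ k) * (f (g ^ k • x) * f y) := by ring
    rw [h5] at h4
    have h6 : (τ 0 * τ k) * (f (g ^ k • x) * f y) < 0 := mul_neg_of_pos_of_neg h1 hcross
    linarith

end Pool.Agent.Lib.MP_eee7a8_ag.TB.C2
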