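import Pool.Agent.Lib.MP_eee7a8_ag.TB.C2.Ncp

/-! # TAGBR: RULE3 (helper2) -/

open Matrix

namespace Pool.Agent.Lib.MP_eee7a8_ag.TB.C2

variable {G : Subgroup SLZ}

/-- `eps * dt a (h b)` -/
lemma eps_dt (h : SLZ) (a b : Cusp) : eps h b * dt a (h • b) =
    a.x * (h.1 1 0 * b.x + h.1 1 1 * b.y) - a.y * (h.1 0 0 * b.x + h.1 0 1 * b.y) := by
  have h1 := smul_x h b
  have h2 := smul_y h b
  unfold dt
  linear_combination a.x * h2 - a.y * h1

lemma eps_dt_inv (h : SLZ) (a b : Cusp) : eps h⁻¹ b * dt a (h⁻¹ • b) =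
    a.x * (-h.1 1 0 * b.x + h.1 0 0 * b.y) - a.y * (h.1 1 1 * b.x - h.1 0 1 * b.y) := by
  rw [eps_dt]
  rw [Matrix.SpecialLinearGroup.coe_inv, Matrix.adjugate_fin_two]
  simp only [Matrix.of_apply, Matrix.cons_val', Matrix.cons_val_zero, Matrix.cons_val_one,
    Matrix.cons_val_fin_one]
  ring

lemma trace_sum (h : SLZ) (a b : Cusp) :
    eps h b * dt a (h • b) + eps h⁻¹ b * dt a (h⁻¹ • b) = h.1.trace * dt a b := by
  rw [eps_dt, eps_dt_inv, Matrix.trace_fin_two, dt]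
  ring

lemma trace_prod (h : SLZ) (a b : Cusp) :
    (eps h b * dt a (h • b)) * (eps h⁻¹ b * dt a (h⁻¹ • b)) =
      dt a b ^ 2 - side h a * side h b := by
  rw [eps_dt, eps_dt_inv, dt]
  unfold side
  have d := det_eq h
  linear_combination (a.x * b.y - a.y * b.x) ^ 2 * d

/-- the values decrease -/
lemma val_lt (h : SLZ) (ht : 2 < |h.1.trace|) {a b : Cusp} (hs : side h a * side h b < 0) :
    dt a (h • b) ≠ 0 ∧ dt a (h⁻¹ • b) ≠ 0 ∧
    (|dt a (h • b)| : ℝ) < |(dt a b : ℝ)| * rho h ∧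
    (|dt a (h⁻¹ • b)| : ℝ) < |(dt a b : ℝ)| * rho h := by
  have hab : a ≠ b := by
    rintro rfl
    nlinarith [mul_self_nonneg (side h a)]
  have hD := dt_ne_zero hab
  set P := eps h b * dt a (h • b) with hP
  set Q := eps h⁻¹ b * dt a (h⁻¹ • b) with hQ
  have hsum : P + Q = h.1.trace * dt a b := trace_sum h a b
  have hprod : P * Q = dt a b ^ 2 - side h a * side h b := trace_prod h a b
  have hPQ : dt a b ^ 2 < P * Q := by rw [hprod]; linarith
  have hPQ0 : 0 < P * Q := lt_of_le_of_lt (sq_nonneg _) hPQ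
  have hP0 : P ≠ 0 := by intro h0; rw [h0] at hPQ0; simp at hPQ0
  have hQ0 : Q ≠ 0 := by intro h0; rw [h0] at hPQ0; simp at hPQ0
  have habsP : |P| = |dt a (h • b)| := by
    rw [hP, abs_mul]
    rcases eps_or h b with h1 | h1 <;> rw [h1] <;> norm_num
  have habsQ : |Q| = |dt a (h⁻¹ • b)| := by
    rw [hQ, abs_mul]
    rcases eps_or h⁻¹ b with h1 | h1 <;> rw [h1] <;> norm_num
  have hsum2 : |P| + |Q| = |h.1.trace| * |dt a b| := by
    rw [← abs_mul, ← hsum]
    rcases lt_or_gt_of_ne hP0 with h1 | h1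
    · have h2 : Q < 0 := by nlinarith
      rw [abs_of_neg h1, abs_of_neg h2, abs_of_neg (by linarith)]
      ring
    · have h2 : 0 < Q := by nlinarith
      rw [abs_of_pos h1, abs_of_pos h2, abs_of_pos (by linarith)]
  have hprod2 : |dt a b| ^ 2 < |P| * |Q| := by
    rw [← abs_mul, abs_of_pos hPQ0, sq_abs]
    exact hPQ
  refine ⟨fun h0 => hP0 (by rw [hP, h0, mul_zero]), fun h0 => hQ0 (by rw [hQ, h0, mul_zero]), ?_⟩
  -- real numbers
  set T : ℝ := |((h.1.trace : ℤ) : ℝ)| with hT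
  have hTe : T = ((|h.1.trace| : ℤ) : ℝ) := by rw [hT]; push_cast; rfl
  have hT2 : 2 < T := by rw [hTe]; exact_mod_cast ht
  set D : ℝ := |(dt a b : ℝ)| with hDdef
  have hDe : D = ((|dt a b| : ℤ) : ℝ) := by rw [hDdef]; push_cast; rfl
  have hD0 : 0 < D := by rw [hDdef]; exact abs_pos.2 (by exact_mod_cast hD)
  set R := Real.sqrt (((h.1.trace : ℤ) : ℝ) ^ 2 - 4) with hR
  have hTT : ((h.1.trace : ℤ) : ℝ) ^ 2 = T ^ 2 := by rw [hT, sq_abs]
  have hRR : R ^ 2 = T ^ 2 - 4 := by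
    rw [hR, Real.sq_sqrt, hTT]
    rw [hTT]
    nlinarith
  have hR0 : 0 ≤ R := Real.sqrt_nonneg _
  have hrho : rho h = (T + R) / 2 := rfl
  have main : ∀ p q : ℝ, 0 ≤ p → 0 ≤ q → p + q = T * D → D ^ 2 < p * q → p < D * rho h := by
    intro p q hp hq h1 h2
    by_contra hcon
    push Not at hcon
    rw [hrho] at hcon
    have h3 : 0 ≤ (p - D * ((T + R) / 2)) * (p - D * ((T - R) / 2)) := by
      apply mul_nonneg
      · linarith
      · nlinarith
    have h4 : (p - D * ((T + R) / 2)) * (p - D * ((T - R) / 2)) =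
        p ^ 2 - T * D * p + D ^ 2 * ((T ^ 2 - R ^ 2) / 4) := by ring
    rw [h4, hRR, ← h1] at h3
    nlinarith
  have hs' : ((|P| : ℤ) : ℝ) + ((|Q| : ℤ) : ℝ) = T * D := by
    rw [hTe, hDe]; exact_mod_cast hsum2
  have hp' : D ^ 2 < ((|P| : ℤ) : ℝ) * ((|Q| : ℤ) : ℝ) := by
    rw [hDe]; exact_mod_cast hprod2
  have hPn : (0 : ℝ) ≤ ((|P| : ℤ) : ℝ) := by exact_mod_cast abs_nonneg P
  have hQn : (0 : ℝ) ≤ ((|Q| : ℤ) : ℝ) := by exact_mod_cast abs_nonneg Q
  have r1 := main _ _ hPn hQn hs' hp'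
  have r2 := main _ _ hQn hPn (by linarith) (by linarith)
  rw [habsP] at r1
  rw [habsQ] at r2
  push_cast at r1 r2
  exact ⟨r1, r2⟩

/-- RULE3 -/
theorem rule3 (ncp : NcpStatement) (trace : TraceStatement) : Rule3Statement := by
  intro G hG e he x y h g hg hw hs K _ _ L
  have hxy : NC G e x y := hw.nc (x, y) (by simp)
  obtain ⟨hmem, htr⟩ := hw.mem h (by simp)
  have hN : NCL G e h := hw.ncl h (by simp)
  have hxyne : x ≠ y := hw.ne (x, y) (by simp)
  set a := g • x with ha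
  set b := g • y with hb
  have hab : NC G e a b := by
    intro c d hcd hc
    have hcd2 : Ge G e (g⁻¹ • c) (g⁻¹ • d) := ge_smul' (G.inv_mem hg) hcd
    refine hxy _ _ hcd2 ?_
    rw [← cross_smul g, smul_inv_smul, smul_inv_smul]
    exact hc
  obtain ⟨n1, n2⟩ := (ncp G hG e he).1 h hmem htr hN a b hab hs
  obtain ⟨-, htrace, -⟩ := trace G K L hG h hmem htr
  obtain ⟨z1, z2, v1, v2⟩ := val_lt h htr hs
  have hW : L.W ⟨[(x, y)], [h]⟩ = L.lam a (h • b) + L.lam a (h⁻¹ • b) := by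
    rw [← htrace a b hs, Lam.W, ha, hb, L.inv g hg]
    simp only [List.map_cons, List.map_nil, List.prod_cons, List.prod_nil, mul_one]
    ring
  have hval : Wd.val ⟨[(x, y)], [h]⟩ = |(dt a b : ℝ)| * rho h := by
    have h1 : |(dt a b : ℝ)| = |(dt x y : ℝ)| := by
      have := abs_dt_smul g x y
      rw [← ha, ← hb] at this
      exact_mod_cast this
    rw [Wd.val, h1]
    simp
  have hval1 : Wd.val ⟨[(a, h • b)], []⟩ = |(dt a (h • b) : ℝ)| := by rw [Wd.val]; simp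
  have hval2 : Wd.val ⟨[(a, h⁻¹ • b)], []⟩ = |(dt a (h⁻¹ • b) : ℝ)| := by rw [Wd.val]; simp
  rw [hW]
  refine add_mem (Submodule.subset_span ⟨⟨[(a, h • b)], []⟩, ?_, Or.inl ?_, ?_⟩)
    (Submodule.subset_span ⟨⟨[(a, h⁻¹ • b)], []⟩, ?_, Or.inl ?_, ?_⟩)
  · refine ⟨?_, ?_, ?_, ?_⟩
    · intro p hp
      simp only [List.mem_cons, List.not_mem_nil, or_false] at hp
      subst hp
      intro h0
      exact z1 (dt_eq_zero.2 h0)
    · intro p hp
      simp only [List.mem_cons, List.not_mem_nil, or_false] at hp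
      subst hp
      exact n1
    · intro g hg; simp at hg
    · intro g hg; simp at hg
  · rw [hval, hval1]; exact v1
  · simp [Lam.W]
  · refine ⟨?_, ?_, ?_, ?_⟩
    · intro p hp
      simp only [List.mem_cons, List.not_mem_nil, or_false] at hp
      subst hp
      intro h0
      exact z2 (dt_eq_zero.2 h0)
    · intro p hp
      simp only [List.mem_cons, List.not_mem_nil, or_false] at hp
      subst hp
      exact n2
    · intro g hg; simp at hg
    · intro g hg; simp at hg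
  · rw [hval, hval2]; exact v2
  · simp [Lam.W]

end Pool.Agent.Lib.MP_eee7a8_ag.TB.C2
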