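import Pool.Agent.Lib.MP_eee7a8_ag.TB.Iface3
import Pool.Agent.Lib.MP_eee7a8_ag.TB.A.Coord

/-! # TAGBR: RUP, RULE1 (helper2) -/

open Matrix

namespace Pool.Agent.Lib.MP_eee7a8_ag.TB.C2

variable {G : Subgroup SLZ} {K : Type} [Field K] [Algebra ℂ K]

lemma ev_single (L : Lam G K) {ι : Type} [Fintype ι] (T : Fam ι) (m : ι → ℤ) (c : ℂ) :
    L.ev T (AddMonoidAlgebra.single m c) = algebraMap ℂ K c * L.mon T m := by
  rw [Lam.ev, AddMonoidAlgebra.coeff_single, Finsupp.sum_single_index]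
  rw [map_zero, zero_mul]

lemma ev_zero (L : Lam G K) {ι : Type} [Fintype ι] (T : Fam ι) : L.ev T 0 = 0 := by
  rw [Lam.ev, AddMonoidAlgebra.coeff_zero, Finsupp.sum_zero_index]

lemma mon_zero (L : Lam G K) {ι : Type} [Fintype ι] (T : Fam ι) : L.mon T 0 = 1 := by
  simp [Lam.mon]

lemma evN_mem_range (L : Lam G K) {ι : Type} [Fintype ι] (T : Fam ι) (hT : L.IsChart T) (p : LP ι) :
    L.evN T p ∈ Set.range (L.ev T) := by
  rw [Lam.evN, Finsupp.sum]
  refine Finset.sum_induction _ (fun x => x ∈ Set.range (L.ev T)) ?_ ?_ ?_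
  · rintro _ _ ⟨p, rfl⟩ ⟨q, rfl⟩
    exact ⟨p + q, hT.add p q⟩
  · exact ⟨0, ev_zero L T⟩
  · intro m _
    refine ⟨AddMonoidAlgebra.single m ((p.coeff m : ℕ) : ℂ), ?_⟩
    rw [ev_single, map_natCast]

/-- RUP -/
theorem rup (pol : PolStatement) (chart : ChartStatement) (trpol : TrPolStatement) :
    RupStatement := by
  intro G K _ _ L hG x hx n T hT
  have hch := chart G K L hG (Fin n) T hT
  obtain ⟨P, hP, hPev⟩ := pol G K L hG (Fin n) T hT
  induction hx using Algebra.adjoin_induction with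
  | mem x hx =>
    rcases hx with ⟨a, b, -, rfl⟩ | ⟨g, hg, htr, -, rfl⟩
    · rw [← hPev a b]
      exact evN_mem_range L T hch _
    · obtain ⟨-, p, -, hp⟩ := trpol G K L hG (Fin n) T hT P hP hPev g hg htr 1 le_rfl
      rw [pow_one] at hp
      rw [← hp]
      exact evN_mem_range L T hch _
  | algebraMap r =>
    exact ⟨AddMonoidAlgebra.single 0 r, by rw [ev_single, mon_zero, mul_one]⟩
  | add x y _ _ hx hy =>
    obtain ⟨p, rfl⟩ := hx
    obtain ⟨q, rfl⟩ := hy
    exact ⟨p + q, hch.add p q⟩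
  | mul x y _ _ hx hy =>
    obtain ⟨p, rfl⟩ := hx
    obtain ⟨q, rfl⟩ := hy
    exact ⟨p * q, hch.mul p q⟩

lemma ge_smul {e : Option (Cusp × Cusp)} {g : SLZ} (hg : g ∈ G) {a b : Cusp} (h : Ge G e a b) :
    Ge G e (g • a) (g • b) := by
  obtain ⟨p, hp, k, hk, h⟩ := h
  refine ⟨p, hp, g * k, G.mul_mem hg hk, ?_⟩
  rw [mul_smul, mul_smul]
  rcases h with h | h
  · left; rw [h.1, h.2]; exact ⟨rfl, rfl⟩
  · right; rw [h.1, h.2]; exact ⟨rfl, rfl⟩

/-- RULE1 -/
theorem rule1 (tool : ToolStatement) : Rule1Statement := by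
  intro G hG e he x y x' y' g hg hw hc K _ _ L
  obtain ⟨-, t2, -, -, -, t6⟩ := tool G hG e he
  have hx : NC G e x y := hw.nc (x, y) (by simp)
  have hx' : NC G e x' y' := hw.nc (x', y') (by simp)
  set c := g • x' with hcdef
  set d := g • y' with hddef
  have hcd : NC G e c d := t2 g hg _ _ hx'
  obtain ⟨n1, n2, n3, n4⟩ := t6 x y c d hc hx hcd
  obtain ⟨m1, m2, m3, m4, m5, m6⟩ := hc.ne
  have hW : L.W ⟨[(x, y), (x', y')], []⟩ = L.lam x c * L.lam y d + L.lam x d * L.lam y c := by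
    rw [← L.ptolemy x y c d hc, Lam.W]
    simp only [List.map_cons, List.map_nil, List.prod_cons, List.prod_nil, mul_one]
    rw [hcdef, hddef, L.inv g hg]
  have hpt := hc.ptolemy
  have hval0 : Wd.val ⟨[(x, y), (x', y')], []⟩ = ((|dt x y| * |dt c d| : ℤ) : ℝ) := by
    rw [Wd.val, hcdef, hddef, abs_dt_smul]
    simp
  have hv1 : Wd.val ⟨[(x, c), (y, d)], []⟩ = ((|dt x c| * |dt y d| : ℤ) : ℝ) := by
    rw [Wd.val]; simp
  have hv2 : Wd.val ⟨[(x, d), (y, c)], []⟩ = ((|dt x d| * |dt y c| : ℤ) : ℝ) := by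
    rw [Wd.val]; simp
  have p1 : 0 < |dt x c| * |dt y d| := mul_pos (abs_pos.2 (dt_ne_zero m2)) (abs_pos.2 (dt_ne_zero m5))
  have p2 : 0 < |dt x d| * |dt y c| := mul_pos (abs_pos.2 (dt_ne_zero m3)) (abs_pos.2 (dt_ne_zero m4))
  have hb1 : |dt x c| * |dt y d| < |dt x y| * |dt c d| := by linarith
  have hb2 : |dt x d| * |dt y c| < |dt x y| * |dt c d| := by linarith
  rw [hW]
  refine add_mem (Submodule.subset_span ⟨⟨[(x, c), (y, d)], []⟩, ?_, Or.inl ?_, ?_⟩)
    (Submodule.subset_span ⟨⟨[(x, d), (y, c)], []⟩, ?_, Or.inl ?_, ?_⟩)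
  · refine ⟨?_, ?_, ?_, ?_⟩
    · intro p hp
      simp only [List.mem_cons, List.not_mem_nil, or_false] at hp
      rcases hp with rfl | rfl
      · exact m2
      · exact m5
    · intro p hp
      simp only [List.mem_cons, List.not_mem_nil, or_false] at hp
      rcases hp with rfl | rfl
      · exact n1
      · exact n2
    · intro g hg; simp at hg
    · intro g hg; simp at hg
  · rw [hval0, hv1]
    exact_mod_cast hb1
  · simp [Lam.W]
  · refine ⟨?_, ?_, ?_, ?_⟩
    · intro p hp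
      simp only [List.mem_cons, List.not_mem_nil, or_false] at hp
      rcases hp with rfl | rfl
      · exact m3
      · exact m4
    · intro p hp
      simp only [List.mem_cons, List.not_mem_nil, or_false] at hp
      rcases hp with rfl | rfl
      · exact n3
      · exact n4
    · intro g hg; simp at hg
    · intro g hg; simp at hg
  · rw [hval0, hv2]
    exact_mod_cast hb2
  · simp [Lam.W]

end Pool.Agent.Lib.MP_eee7a8_ag.TB.C2
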