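import Pool.Agent.Lib.MP_eee7a8_ag.TB.C2.Vgen
import Pool.Agent.Lib.MP_eee7a8_ag.TB.C2.Casea

/-! # TAGBR: VABS (helper2) -/

open Matrix

namespace Pool.Agent.Lib.MP_eee7a8_ag.TB.C2

variable {G : Subgroup SLZ} {K : Type} [Field K] [Algebra ℂ K]

/-- elements of trace `±2` fix a cusp -/
lemma exists_fixed (k : SLZ) (h : |k.1.trace| = 2) : ∃ c : Cusp, k • c = c := by
  obtain ⟨ε, hε, ht⟩ : ∃ ε : ℤ, ε * ε = 1 ∧ k.1.trace = 2 * ε := by
    rcases abs_eq (by norm_num : (0 : ℤ) ≤ 2) |>.1 h with h1 | h1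
    · exact ⟨1, by norm_num, by rw [h1]; norm_num⟩
    · exact ⟨-1, by norm_num, by rw [h1]; norm_num⟩
  rw [Matrix.trace_fin_two] at ht
  have hdet := det_eq k
  -- it is enough to find a kernel vector
  have main : ∀ x y : ℤ, IsCoprime x y → k.1 0 0 * x + k.1 0 1 * y = ε * x →
      k.1 1 0 * x + k.1 1 1 * y = ε * y → ∃ c : Cusp, k • c = c := by
    intro x y hxy h1 h2
    refine ⟨Cusp.mk' x y hxy, ?_⟩
    obtain ⟨e1, e2, e3⟩ := mk'_aux x y hxy
    set e : ℤ := (if 0 < y then (1 : ℤ) else if y < 0 then -1 else x) with he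
    set c := Cusp.mk' x y hxy with hc
    have hee : e * e = 1 := by rcases e3 with h | h <;> rw [h] <;> norm_num
    have h1' : k.1 0 0 * c.x + k.1 0 1 * c.y = ε * c.x := by
      have : e * (k.1 0 0 * c.x + k.1 0 1 * c.y) = e * (ε * c.x) := by
        linear_combination k.1 0 0 * e1 + k.1 0 1 * e2 + h1 - ε * e1
      linear_combination e * this - (k.1 0 0 * c.x + k.1 0 1 * c.y) * hee + (ε * c.x) * hee
    have h2' : k.1 1 0 * c.x + k.1 1 1 * c.y = ε * c.y := by
      have : e * (k.1 1 0 * c.x + k.1 1 1 * c.y) = e * (ε * c.y) := by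
        linear_combination k.1 1 0 * e1 + k.1 1 1 * e2 + h2 - ε * e2
      linear_combination e * this - (k.1 1 0 * c.x + k.1 1 1 * c.y) * hee + (ε * c.y) * hee
    apply dt_eq_zero.1
    have hx := smul_x k c
    have hy := smul_y k c
    have : eps k c * dt (k • c) c = 0 := by
      unfold dt
      linear_combination c.y * hx - c.x * hy + c.y * h1' - c.x * h2'
    exact (mul_eq_zero.1 this).resolve_left (eps_ne_zero k c)
  by_cases h0 : k.1 0 1 = 0 ∧ ε - k.1 0 0 = 0
  · obtain ⟨h1, h2⟩ := h0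
    refine main 0 1 isCoprime_one_right ?_ ?_
    · rw [h1]; ring
    · linear_combination ht + h2
  · set x := k.1 0 1 with hx
    set y := ε - k.1 0 0 with hy
    have hg : 0 < Int.gcd x y := by
      rw [Int.gcd_pos_iff]
      by_contra hcon
      push Not at hcon
      exact h0 hcon
    obtain ⟨x', y', hcop, hx', hy'⟩ := Int.exists_gcd_one hg
    have hcop' : IsCoprime x' y' := Int.isCoprime_iff_gcd_eq_one.2 hcop
    have hg0 : (Int.gcd x y : ℤ) ≠ 0 := by exact_mod_cast hg.ne'
    have k1 : k.1 0 0 * x + k.1 0 1 * y = ε * x := by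
      rw [hy]; ring
    have k2 : k.1 1 0 * x + k.1 1 1 * y = ε * y := by
      rw [hy, hx]
      linear_combination ε * ht - hdet + hε
    refine main x' y' hcop' ?_ ?_
    · apply mul_right_cancel₀ hg0
      linear_combination k1 - k.1 0 0 * hx' - k.1 0 1 * hy' + ε * hx'
    · apply mul_right_cancel₀ hg0
      linear_combination k2 - k.1 1 0 * hx' - k.1 1 1 * hy' + ε * hy'

lemma eps_neg (g : SLZ) (a : Cusp) : eps (-g) a = - eps g a := by
  have h1 := smul_x (-g) a
  have h2 := smul_y (-g) a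
  have h3 := smul_x g a
  have h4 := smul_y g a
  rw [neg_smul'] at h1 h2
  simp only [Matrix.SpecialLinearGroup.coe_neg, Matrix.neg_apply] at h1 h2
  rcases (g • a).ne_zero with h | h
  · apply mul_right_cancel₀ h
    linear_combination h1 + h3
  · apply mul_right_cancel₀ h
    linear_combination h2 + h4

/-- entries of the action -/
lemma rep_act (L : Lam G K) (Rp : Rep L) (g : G) (a : Cusp) (i : Fin 2) :
    (Rp.R g).1 i 0 * Rp.W a 0 + (Rp.R g).1 i 1 * Rp.W a 1 =
      ((eps g a : ℤ) : K) * Rp.W ((g : SLZ) • a) i := by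
  have := congrFun (Rp.act g a) i
  simpa [Matrix.mulVec, dotProduct, Fin.sum_univ_two] using this

/-- traces of the representation are in `R` -/
lemma trR_mem (trace : TraceStatement) (nonzero : NonzeroStatement) (hG : IsSurface G)
    (L : Lam G K) (Rp : Rep L) (k : G) : (Rp.R k).1.trace ∈ L.RA := by
  have h2 := hG.tor k.1 k.2
  rcases h2.lt_or_eq with h | h
  · obtain ⟨-, -, -, -, -, -, h7⟩ := trace G K L hG k.1 k.2 h
    have h8 := h7 Rp k rfl
    have hmem : L.tr k.1 ∈ L.RA :=
      Algebra.subset_adjoin (Or.inr ⟨k.1, k.2, h, fun _ _ h => h.elim, rfl⟩)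
    have htr0 : (k.1 : SLZ).1.trace ≠ 0 := by
      intro h0; rw [h0] at h; norm_num at h
    have hs : ((Int.sign (k.1 : SLZ).1.trace : ℤ) : K) * ((Int.sign (k.1 : SLZ).1.trace : ℤ) : K) = 1 := by
      have : Int.sign (k.1 : SLZ).1.trace * Int.sign (k.1 : SLZ).1.trace = 1 := by
        rcases lt_or_gt_of_ne htr0 with h2 | h2
        · rw [Int.sign_eq_neg_one_of_neg h2]; norm_num
        · rw [Int.sign_eq_one_of_pos h2]; norm_num
      have := congrArg (Int.cast : ℤ → K) this
      push_cast at this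
      exact this
    have h9 : (Rp.R k).1.trace = ((Int.sign (k.1 : SLZ).1.trace : ℤ) : K) * L.tr k.1 := by
      rw [h8, ← mul_assoc, hs, one_mul]
    rw [h9]
    exact mul_mem (Subalgebra.intCast_mem _ _) hmem
  · obtain ⟨c, hc⟩ := exists_fixed k.1 h.symm
    have a0 := rep_act L Rp k c 0
    have a1 := rep_act L Rp k c 1
    rw [hc] at a0 a1
    -- eigenvalue `±1`
    set e : K := ((eps (k : SLZ) c : ℤ) : K) with he
    have hee : e * e = 1 := by
      have := congrArg (Int.cast : ℤ → K) (eps_sq (k : SLZ) c)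
      push_cast at this
      exact this
    have hdet : (Rp.R k).1 0 0 * (Rp.R k).1 1 1 - (Rp.R k).1 0 1 * (Rp.R k).1 1 0 = 1 := by
      have := (Rp.R k).2
      rwa [Matrix.det_fin_two] at this
    have hchar : e * e - (Rp.R k).1.trace * e + 1 = 0 := by
      rw [Matrix.trace_fin_two]
      -- the characteristic polynomial at `e` kills `W c ≠ 0`
      have hW : Rp.W c 0 ≠ 0 ∨ Rp.W c 1 ≠ 0 := by
        by_contra hcon
        push Not at hcon
        obtain ⟨y, hy⟩ : ∃ y : Cusp, y ≠ c := by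
          by_cases h : c = infty
          · exact ⟨zero, by
              rw [h]; intro h'
              have := congrArg Cusp.x h'
              simp [zero, infty] at this⟩
          · exact ⟨infty, Ne.symm h⟩
        have h1 := Rp.det c y
        rw [hcon.1, hcon.2, zero_mul, zero_mul, sub_zero] at h1
        have h2 := sl_sq L c y
        rw [← h1, mul_zero] at h2
        exact nonzero G K L hG c y (Ne.symm hy) (pow_eq_zero_iff (two_ne_zero) |>.1 h2.symm)
      rcases hW with hW | hW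
      · apply mul_left_cancel₀ hW
        linear_combination ((Rp.R k).1 1 1 - e) * a0 - (Rp.R k).1 0 1 * a1 - Rp.W c 0 * hdet
      · apply mul_left_cancel₀ hW
        linear_combination ((Rp.R k).1 0 0 - e) * a1 - (Rp.R k).1 1 0 * a0 - Rp.W c 1 * hdet
    have : (Rp.R k).1.trace = ((eps (k : SLZ) c : ℤ) : K) * ((2 : ℤ) : K) := by
      push_cast
      rw [← he]
      linear_combination (-e) * hchar - (Rp.R k).1.trace * hee + e * hee
    rw [this]
    exact mul_mem (Subalgebra.intCast_mem _ _) (Subalgebra.intCast_mem _ _)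

lemma sl_mem_RA (L : Lam G K) (a b : Cusp) : L.sl a b ∈ L.RA := by
  rw [Lam.sl]
  exact mul_mem (Subalgebra.intCast_mem _ _) (lam_mem_RA L a b)

lemma lam_eq_sl (L : Lam G K) (a b : Cusp) :
    L.lam a b = ((Int.sign (dt a b) : ℤ) : K) * L.sl a b := by
  by_cases h : a = b
  · subst h; rw [L.self, sl_self, mul_zero]
  · rw [Lam.sl, ← mul_assoc]
    have h1 : Int.sign (dt a b) * Int.sign (dt a b) = 1 := by
      rcases lt_or_gt_of_ne (dt_ne_zero h) with h2 | h2
      · rw [Int.sign_eq_neg_one_of_neg h2]; norm_num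
      · rw [Int.sign_eq_one_of_pos h2]; norm_num
    have := congrArg (Int.cast : ℤ → K) h1
    push_cast at this
    rw [this, one_mul]

/-- VABS -/
theorem vabs (vpar : VparStatement) (rep : RepStatement) (trace : TraceStatement)
    (stab : StabStatement) (nonzero : NonzeroStatement) : VabsStatement := by
  intro G K _ _ L hG
  refine ⟨?_, ?_⟩
  · intro z y y'
    have h := vpar G K L hG z y' y 1
    have h1 : L.v z * L.sl z y * L.sl y' z ∈ L.RA := by
      have : L.v z * L.sl z y * L.sl y' z =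
          ((eps (par z (1 * width G z)) y : ℤ) : K) * L.sl y' (par z (1 * width G z) • y) - L.sl y' y := by
        rw [h]; push_cast; ring
      rw [this]
      exact sub_mem (mul_mem (Subalgebra.intCast_mem _ _) (sl_mem_RA L _ _)) (sl_mem_RA L _ _)
    have h2 : L.v z * L.lam z y * L.lam z y' = ((Int.sign (dt z y) : ℤ) : K) *
        ((Int.sign (dt y' z) : ℤ) : K) * (L.v z * L.sl z y * L.sl y' z) := by
      rw [lam_eq_sl L z y, L.symm z y', lam_eq_sl L y' z]
      ring
    rw [h2]
    exact mul_mem (mul_mem (Subalgebra.intCast_mem _ _) (Subalgebra.intCast_mem _ _)) h1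
  · intro z g hg
    obtain ⟨Rp⟩ := rep G K L hG
    set p := par z (1 * width G z) with hp
    obtain ⟨γ, s, hγ, hs, heps, hact⟩ : ∃ (γ : SLZ) (s : ℤ), γ ∈ G ∧ s * s = 1 ∧
        (∀ y, eps γ y = s * eps p y) ∧ (∀ y : Cusp, γ • y = p • y) := by
      rcases (stab G hG z).2.1 with h | h
      · refine ⟨p, 1, by rw [hp, one_mul]; exact h, by norm_num, fun y => by ring, fun y => rfl⟩
      · refine ⟨-p, -1, by rw [hp, one_mul]; exact h, by norm_num,
          fun y => by rw [eps_neg]; ring, fun y => neg_smul' _ _⟩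
    obtain ⟨y, hy⟩ : ∃ y : Cusp, y ≠ z := by
      by_cases h : z = infty
      · exact ⟨zero, by
          rw [h]; intro h'
          have := congrArg Cusp.x h'
          simp [zero, infty] at this⟩
      · exact ⟨infty, Ne.symm h⟩
    set D := L.sl z y with hD
    have hD0 : D ≠ 0 := by
      intro h0
      have h2 := sl_sq L z y
      rw [← hD, h0, mul_zero] at h2
      exact nonzero G K L hG z y (Ne.symm hy) (pow_eq_zero_iff (two_ne_zero) |>.1 h2.symm)
    set E : K := ((eps p y : ℤ) : K) with hE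
    -- `E W(p y) = W y + v D W z`
    have q1 := vpar G K L hG z z y 1
    have q2 := vpar G K L hG z y y 1
    rw [← hp, sl_self, mul_zero, add_zero] at q1
    rw [← hp, sl_self, zero_add] at q2
    push_cast at q2
    have d1 := Rp.det z (p • y)
    have d2 := Rp.det y (p • y)
    have d3 := Rp.det z y
    have d4 := Rp.det y z
    rw [← hD] at d3
    have t0 : E * Rp.W (p • y) 0 - Rp.W y 0 - L.v z * D * Rp.W z 0 = 0 := by
      apply mul_left_cancel₀ hD0
      rw [mul_zero]
      have e1 : Rp.W z 0 * (E * Rp.W (p • y) 1 - Rp.W y 1 - L.v z * D * Rp.W z 1) -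
          Rp.W z 1 * (E * Rp.W (p • y) 0 - Rp.W y 0 - L.v z * D * Rp.W z 0) = 0 := by
        linear_combination E * d1 - d3 + q1
      have e2 : Rp.W y 0 * (E * Rp.W (p • y) 1 - Rp.W y 1 - L.v z * D * Rp.W z 1) -
          Rp.W y 1 * (E * Rp.W (p • y) 0 - Rp.W y 0 - L.v z * D * Rp.W z 0) = 0 := by
        linear_combination E * d2 + q2 - L.v z * D * d4
      linear_combination Rp.W y 0 * e1 - Rp.W z 0 * e2 -
        (E * Rp.W (p • y) 0 - Rp.W y 0 - L.v z * D * Rp.W z 0) * d3
    have t1 : E * Rp.W (p • y) 1 - Rp.W y 1 - L.v z * D * Rp.W z 1 = 0 := by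
      apply mul_left_cancel₀ hD0
      rw [mul_zero]
      have e1 : Rp.W z 0 * (E * Rp.W (p • y) 1 - Rp.W y 1 - L.v z * D * Rp.W z 1) -
          Rp.W z 1 * (E * Rp.W (p • y) 0 - Rp.W y 0 - L.v z * D * Rp.W z 0) = 0 := by
        linear_combination E * d1 - d3 + q1
      have e2 : Rp.W y 0 * (E * Rp.W (p • y) 1 - Rp.W y 1 - L.v z * D * Rp.W z 1) -
          Rp.W y 1 * (E * Rp.W (p • y) 0 - Rp.W y 0 - L.v z * D * Rp.W z 0) = 0 := by
        linear_combination E * d2 + q2 - L.v z * D * d4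
      linear_combination Rp.W y 1 * e1 - Rp.W z 1 * e2 -
        (E * Rp.W (p • y) 1 - Rp.W y 1 - L.v z * D * Rp.W z 1) * d3
    -- the actions of `γ`
    let γ' : G := ⟨γ, hγ⟩
    let g' : G := ⟨g, hg⟩
    have c0 := rep_act L Rp γ' y 0
    have c1 := rep_act L Rp γ' y 1
    have b0 := rep_act L Rp γ' z 0
    have b1 := rep_act L Rp γ' z 1
    have hpz : p • z = z := par_smul_self _ _
    have hepz : eps p z = 1 := by
      have h1 := par_smul_x z z (1 * width G z)
      have h2 := par_smul_y z z (1 * width G z)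
      rw [← hp, hpz, dt_self, mul_zero, zero_mul, add_zero] at h1 h2
      rcases z.ne_zero with h | h
      · apply mul_right_cancel₀ h; rw [h1, one_mul]
      · apply mul_right_cancel₀ h; rw [h2, one_mul]
    change _ = ((eps γ y : ℤ) : K) * Rp.W (γ • y) 0 at c0
    change _ = ((eps γ y : ℤ) : K) * Rp.W (γ • y) 1 at c1
    change _ = ((eps γ z : ℤ) : K) * Rp.W (γ • z) 0 at b0
    change _ = ((eps γ z : ℤ) : K) * Rp.W (γ • z) 1 at b1
    rw [heps, hact] at c0 c1 b0 b1
    rw [hpz, hepz, mul_one] at b0 b1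
    push_cast at c0 c1
    have a0 := rep_act L Rp g' z 0
    have a1 := rep_act L Rp g' z 1
    change _ = ((eps g z : ℤ) : K) * Rp.W (g • z) 0 at a0
    change _ = ((eps g z : ℤ) : K) * Rp.W (g • z) 1 at a1
    have dg := Rp.det z (g • z)
    have hmul : (Rp.R (g' * γ')).1 = (Rp.R g').1 * (Rp.R γ').1 := by
      rw [map_mul]; rfl
    have htr : (Rp.R (g' * γ')).1.trace = (Rp.R g').1 0 0 * (Rp.R γ').1 0 0 +
        (Rp.R g').1 0 1 * (Rp.R γ').1 1 0 + ((Rp.R g').1 1 0 * (Rp.R γ').1 0 1 +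
        (Rp.R g').1 1 1 * (Rp.R γ').1 1 1) := by
      rw [hmul, Matrix.trace_fin_two]
      simp [Matrix.mul_apply, Fin.sum_univ_two]
    have hsK : (s : K) * (s : K) = 1 := by
      have := congrArg (Int.cast : ℤ → K) hs
      push_cast at this
      exact this
    set A := (Rp.R g').1 with hA
    set C := (Rp.R γ').1 with hC
    set u0 := Rp.W z 0
    set u1 := Rp.W z 1
    set w0 := Rp.W y 0
    set w1 := Rp.W y 1
    have c0' : C 0 0 * w0 + C 0 1 * w1 = s * (w0 + L.v z * D * u0) := by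
      rw [c0]; linear_combination (s : K) * t0
    have c1' : C 1 0 * w0 + C 1 1 * w1 = s * (w1 + L.v z * D * u1) := by
      rw [c1]; linear_combination (s : K) * t1
    -- `tr (A C) D = s (tr A D + v D det(u, A u))`
    have key : (Rp.R (g' * γ')).1.trace * D =
        s * (A.trace * D + L.v z * D * (((eps g z : ℤ) : K) * L.sl z (g • z))) := by
      rw [htr, ← dg, Matrix.trace_fin_two, ← d3]
      have x1 : (A 0 0 * C 0 0 + A 0 1 * C 1 0 + (A 1 0 * C 0 1 + A 1 1 * C 1 1)) * (u0 * w1 - u1 * w0) =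
          ((A 0 0 * (C 0 0 * u0 + C 0 1 * u1) + A 0 1 * (C 1 0 * u0 + C 1 1 * u1)) * w1 -
            (A 1 0 * (C 0 0 * u0 + C 0 1 * u1) + A 1 1 * (C 1 0 * u0 + C 1 1 * u1)) * w0) +
          (u0 * (A 1 0 * (C 0 0 * w0 + C 0 1 * w1) + A 1 1 * (C 1 0 * w0 + C 1 1 * w1)) -
            u1 * (A 0 0 * (C 0 0 * w0 + C 0 1 * w1) + A 0 1 * (C 1 0 * w0 + C 1 1 * w1))) := by
        ring
      rw [x1, b0, b1, c0', c1', ← d3]
      have y0 : ((eps g z : ℤ) : K) * Rp.W (g • z) 0 = A 0 0 * u0 + A 0 1 * u1 := a0.symm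
      have y1 : ((eps g z : ℤ) : K) * Rp.W (g • z) 1 = A 1 0 * u0 + A 1 1 * u1 := a1.symm
      linear_combination (- (s : K) * L.v z * (u0 * w1 - u1 * w0) * u0) * y1 +
        ((s : K) * L.v z * (u0 * w1 - u1 * w0) * u1) * y0
    have key2 : L.v z * L.sl z (g • z) =
        ((eps g z : ℤ) : K) * ((s : K) * (Rp.R (g' * γ')).1.trace - A.trace) := by
      have hege : ((eps g z : ℤ) : K) * ((eps g z : ℤ) : K) = 1 := by
        have := congrArg (Int.cast : ℤ → K) (eps_sq g z)
        push_cast at this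
        exact this
      apply mul_right_cancel₀ hD0
      linear_combination (-((eps g z : ℤ) : K) * s) * key +
        (-(L.v z * L.sl z (g • z) * D)) * hege -
        (((eps g z : ℤ) : K) * (A.trace * D + L.v z * D * (((eps g z : ℤ) : K) * L.sl z (g • z)))) * hsK
    rw [lam_eq_sl L z (g • z)]
    have : L.v z * (((Int.sign (dt z (g • z)) : ℤ) : K) * L.sl z (g • z)) =
        ((Int.sign (dt z (g • z)) : ℤ) : K) * (L.v z * L.sl z (g • z)) := by ring
    rw [this, key2]
    refine mul_mem (Subalgebra.intCast_mem _ _) (mul_mem (Subalgebra.intCast_mem _ _)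
      (sub_mem (mul_mem (Subalgebra.intCast_mem _ _) ?_) ?_))
    · exact trR_mem trace nonzero hG L Rp _
    · exact trR_mem trace nonzero hG L Rp _

end Pool.Agent.Lib.MP_eee7a8_ag.TB.C2
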