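import Pool.Agent.Lib.MP_eee7a8_ag.TB.Iface3
import Pool.Agent.Lib.MP_eee7a8_ag.TB.A.Coord

/-! # TAGBR: VGEN, HORO (helper2) -/

open Matrix

namespace Pool.Agent.Lib.MP_eee7a8_ag.TB.C2

variable {G : Subgroup SLZ} {K : Type} [Field K] [Algebra ℂ K]

lemma sl_self (L : Lam G K) (a : Cusp) : L.sl a a = 0 := by
  rw [Lam.sl, L.self, mul_zero]

lemma sl_symm (L : Lam G K) (a b : Cusp) : L.sl a b = - L.sl b a := by
  rw [Lam.sl, Lam.sl, dt_symm a b, Int.sign_neg, L.symm a b]
  push_cast
  ring

lemma sl_sq (L : Lam G K) (a b : Cusp) : L.sl a b * L.sl a b = L.lam a b ^ 2 := by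
  by_cases h : a = b
  · subst h
    rw [sl_self, L.self]
    ring
  · rw [Lam.sl]
    have h1 : Int.sign (dt a b) * Int.sign (dt a b) = 1 := by
      rcases lt_or_gt_of_ne (dt_ne_zero h) with h2 | h2
      · rw [Int.sign_eq_neg_one_of_neg h2]; norm_num
      · rw [Int.sign_eq_one_of_pos h2]; norm_num
    have h3 : ((Int.sign (dt a b) : ℤ) : K) * ((Int.sign (dt a b) : ℤ) : K) = 1 := by
      have := congrArg (Int.cast : ℤ → K) h1
      push_cast at this
      exact this
    linear_combination (L.lam a b ^ 2) * h3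

/-- VGEN -/
theorem vgen (vpar : VparStatement) (stab : StabStatement) : VgenStatement := by
  intro G K _ _ L hG z w k
  by_cases hzw : z = w
  · subst hzw
    rw [par_smul_self, L.self]
    ring
  by_cases hk : k = 0
  · subst hk
    rw [zero_mul, par_zero, one_smul, L.self]
    simp
  have hw : (0 : ℤ) < width G z := by exact_mod_cast (stab G hG z).1
  set n : ℤ := k * width G z with hn
  have hv := vpar G K L hG z w w k
  rw [← hn, sl_self, zero_add, sl_symm L w z] at hv
  have hd := par_dt z w w n
  rw [dt_self, zero_add, dt_symm w z] at hd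
  set e := eps (par z n) w with he
  have hee : e * e = 1 := eps_sq _ _
  have hD : 0 < dt z w * dt z w := mul_self_pos.2 (dt_ne_zero hzw)
  have hdt : dt w (par z n • w) = - (e * n * (dt z w * dt z w)) := by
    linear_combination e * hd - dt w (par z n • w) * hee
  have hsign : e * Int.sign (dt w (par z n • w)) = - Int.sign k := by
    have e1 : e = 1 ∨ e = -1 := eps_or _ _
    rcases lt_or_gt_of_ne hk with hk' | hk'
    · rw [Int.sign_eq_neg_one_of_neg hk']
      have hn' : n < 0 := by rw [hn]; exact mul_neg_of_neg_of_pos hk' hw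
      rcases e1 with e1 | e1
      · rw [e1, Int.sign_eq_one_of_pos (by rw [hdt, e1]; nlinarith)]; norm_num
      · rw [e1, Int.sign_eq_neg_one_of_neg (by rw [hdt, e1]; nlinarith)]; norm_num
    · rw [Int.sign_eq_one_of_pos hk']
      have hn' : 0 < n := by rw [hn]; exact mul_pos hk' hw
      rcases e1 with e1 | e1
      · rw [e1, Int.sign_eq_neg_one_of_neg (by rw [hdt, e1]; nlinarith)]; norm_num
      · rw [e1, Int.sign_eq_one_of_pos (by rw [hdt, e1]; nlinarith)]; norm_num
  have hsignK : (e : K) * ((Int.sign (dt w (par z n • w)) : ℤ) : K) = - ((Int.sign k : ℤ) : K) := by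
    have := congrArg (Int.cast : ℤ → K) hsign
    push_cast at this
    exact this
  have hss : Int.sign k * Int.sign k = 1 := by
    rcases lt_or_gt_of_ne hk with hk' | hk'
    · rw [Int.sign_eq_neg_one_of_neg hk']; norm_num
    · rw [Int.sign_eq_one_of_pos hk']; norm_num
  have hssK : ((Int.sign k : ℤ) : K) * ((Int.sign k : ℤ) : K) = 1 := by
    have := congrArg (Int.cast : ℤ → K) hss
    push_cast at this
    exact this
  have habs : ((|k| : ℤ) : K) = ((Int.sign k : ℤ) : K) * (k : K) := by
    have : |k| = Int.sign k * k := (Int.sign_mul_self_eq_abs k).symm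
    rw [this]; push_cast; ring
  have hsq := sl_sq L z w
  rw [Lam.sl] at hv
  rw [habs]
  linear_combination (-((Int.sign k : ℤ) : K)) * hv +
    (((Int.sign k : ℤ) : K) * k * L.v z) * hsq + (((Int.sign k : ℤ) : K) * L.lam w (par z n • w)) * hsignK -
    L.lam w (par z n • w) * hssK

/-- a generator of the stabiliser is `± par z (± width)` -/
lemma gen_form (stab : StabStatement) (hG : IsSurface G) {z : Cusp} {γ : SLZ} (hγ : γ ∈ G)
    (hz : γ • z = z) (hgen : ∀ g ∈ G, g • z = z → ∃ k : ℤ, g = γ ^ k ∨ g = -γ ^ k) :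
    ∃ k : ℤ, (k = 1 ∨ k = -1) ∧ (γ = par z (k * width G z) ∨ γ = -par z (k * width G z)) := by
  obtain ⟨hw, hmem, hst⟩ := stab G hG z
  obtain ⟨k, hk⟩ := hst γ hγ hz
  have hw' : (0 : ℤ) < width G z := by exact_mod_cast hw
  refine ⟨k, ?_, hk⟩
  -- a fixed cusp different from `z`
  obtain ⟨y, hy⟩ : ∃ y : Cusp, y ≠ z := by
    by_cases h : z = infty
    · exact ⟨zero, by
        rw [h]; intro h'
        have := congrArg Cusp.x h'
        simp [zero, infty] at this⟩
    · exact ⟨infty, Ne.symm h⟩
  -- some `g = ± par z width` in `G`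
  obtain ⟨g, hg, hg'⟩ : ∃ g ∈ G, g = par z (width G z) ∨ g = -par z (width G z) := by
    rcases hmem with h | h
    · exact ⟨_, h, Or.inl rfl⟩
    · exact ⟨_, h, Or.inr rfl⟩
  have hgz : g • z = z := by
    rcases hg' with h | h
    · rw [h, par_smul_self]
    · rw [h, neg_smul', par_smul_self]
  obtain ⟨j, hj⟩ := hgen g hg hgz
  -- compare actions
  have hact : ∀ x : Cusp, par z (width G z) • x = par z (j * (k * width G z)) • x := by
    intro x
    have h1 : g • x = par z (width G z) • x := by
      rcases hg' with h | h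
      · rw [h]
      · rw [h, neg_smul']
    have h2 : γ ^ j = par z (j * (k * width G z)) ∨ γ ^ j = -par z (j * (k * width G z)) := by
      rcases hk with h | h
      · left; rw [h, par_zpow]
      · rw [h]
        rcases Int.even_or_odd j with hj' | hj'
        · left; rw [hj'.neg_zpow, par_zpow]
        · right; rw [hj'.neg_zpow, par_zpow]
    have h3 : g • x = par z (j * (k * width G z)) • x := by
      rcases hj with h | h <;> rcases h2 with h' | h' <;> rw [h, h'] <;> simp [neg_smul']
    rw [← h1, h3]
  have h4 := hact y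
  have h5 : par z (j * (k * width G z) - width G z) • y = y := by
    have : par z (j * (k * width G z) - width G z) = (par z (width G z))⁻¹ * par z (j * (k * width G z)) := by
      rw [par_inv, par_mul]; congr 1; ring
    rw [this, mul_smul, ← h4, inv_smul_smul]
  have h6 := par_dt z y y (j * (k * width G z) - width G z)
  rw [h5, dt_self, mul_zero, zero_add, dt_symm y z] at h6
  have h7 : dt z y ≠ 0 := dt_ne_zero (Ne.symm hy)
  have h8 : (j * (k * width G z) - width G z : ℤ) * (dt z y * dt z y) = 0 := by linear_combination h6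
  have h9 : (j * (k * width G z) - width G z : ℤ) = 0 := by
    rcases mul_eq_zero.1 h8 with h | h
    · exact h
    · exact absurd h (mul_ne_zero h7 h7)
  have h10 : k * j = 1 := by
    have : (k * j - 1) * (width G z : ℤ) = 0 := by linear_combination h9
    rcases mul_eq_zero.1 this with h | h
    · linarith
    · omega
  exact Int.eq_one_or_neg_one_of_mul_eq_one h10

/-- HORO -/
theorem horo (vgen : VgenStatement) (stab : StabStatement) (nonzero : NonzeroStatement) :
    HoroStatement := by
  intro G K _ _ L hG z w v γ hγ hz hgen hc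
  obtain ⟨k, hk, hγk⟩ := gen_form stab hG hγ hz hgen
  have h1 : L.lam w (γ • w) = L.v z * L.lam z w ^ 2 := by
    have h2 := vgen G K L hG z w k
    have h3 : γ • w = par z (k * width G z) • w := by
      rcases hγk with h | h
      · rw [h]
      · rw [h, neg_smul']
    rw [h3, h2]
    have : |k| = 1 := by rcases hk with h | h <;> rw [h] <;> norm_num
    rw [this]
    push_cast
    ring
  have h4 := L.ptolemy z v w (γ • w) hc
  have h5 : L.lam z (γ • w) = L.lam z w := by
    conv_lhs => rw [← hz]
    exact L.inv γ hγ z w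
  rw [h1, h5] at h4
  have h6 : L.lam z w ≠ 0 := nonzero G K L hG z w hc.ne.2.1
  apply mul_left_cancel₀ h6
  rw [L.symm w v]
  linear_combination h4

end Pool.Agent.Lib.MP_eee7a8_ag.TB.C2
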